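import Pool.Agent.Lib.MP_651af7_nt.Tl.Main

/-! Vojta's inequality with the multiplier ideal correction, for arbitrary ideals on smooth
projective varieties with a finite étale cover birational to a split torus bundle over an abelian
variety, up to the counting function of the boundary of the bundle.

The variety is the zero set of `I` and the cover is the zero set of `I'`. The ideal sheaf is
generated by the forms `F`; the forms `G` are sections of the multiplier ideal, which is defined by
the log resolution with generic point `η`. The prime ideal `Q` is homogeneous in each of `n + 1`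
blocks of variables; the variety it defines in the product of the `n + 1` projective spaces is an
abelian variety, and the torus bundle is the set of zeros of `Q` in one projective space at which no
block vanishes. The height of the canonical class is read from the Gauss map. -/

namespace Pool.Agent.Results.MP_8865d3_nt.BirationalTorus

open Height MvPolynomial NumberField Pool.Agent.Lib
open MP_651af7_nt.Bx MP_651af7_nt.Ds MP_651af7_nt.Et MP_651af7_nt.Tb MP_8865d3_nt
open MP_8865d3_nt.Sa (cnt vi_of_res)

theorem result (k : Type) [Field k] [NumberField k] (N N' n r g : ℕ)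
    (I : Ideal (MvPolynomial (Fin N) k)) (hI : Var I) (hs : Smooth I g)
    (I' : Ideal (MvPolynomial (Fin N') (AlgebraicClosure k))) (hI' : Var I')
    (f : (Fin N' → AlgebraicClosure k) → Fin N → AlgebraicClosure k)
    (hf : Etale I' (I.map (MvPolynomial.map (algebraMap k (AlgebraicClosure k)))) f)
    (Q : Ideal (MvPolynomial (Fin (n + 1) × Fin r) (AlgebraicClosure k))) (hp : Q.IsPrime)
    (hQ : ∀ P ∈ Q, ∀ m, cp m P ∈ Q) (hA : Abelian (base Q))
    (φ : Fin (n + 1) × Fin r → MvPolynomial (Fin N') (AlgebraicClosure k))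
    (ψ : Fin N' → MvPolynomial (Fin (n + 1) × Fin r) (AlgebraicClosure k))
    (h₁ : Inv I' Q φ ψ) (h₂ : Inv Q I' ψ φ)
    (a b e e' : ℕ) (F : Fin a → MvPolynomial (Fin N) k) (hF : ∀ l, (F l).IsHomogeneous e)
    (G : Fin b → MvPolynomial (Fin N) k) (hG : ∀ l, (G l).IsHomogeneous e')
    (K : Type) [Field K] [Algebra k K] (ξ : Fin N → K) (m : ℕ) (η : Fin m → K)
    (hr : Lr.LogRes I g F ξ η) (hm : ∀ l, ∀ c : ℚ, 0 < c → c < 1 → Lr.InMult g F ξ η c (G l))
    (ε : ℝ) (hε : 0 < ε) :
    ∃ (Θ : MvPolynomial (Fin N) k) (t : ℕ) (L : IntermediateField k (AlgebraicClosure k))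
      (_ : NumberField L) (c : ℝ), Θ.IsHomogeneous t ∧ Θ ∉ I ∧
      ∀ (S : Finset (FinitePlace k)) (T : Finset (FinitePlace L)), ∃ C : ℝ,
        ∀ (x : Fin N → k) (y : Fin N' → AlgebraicClosure k) (s : AlgebraicClosure k), x ≠ 0 →
        (∀ P ∈ I, eval x P = 0) → eval x Θ ≠ 0 → (fun l => eval x (F l)) ≠ 0 →
        (fun l => eval x (G l)) ≠ 0 → y ≠ 0 → (∀ P ∈ I', eval y P = 0) →
        (fun i => algebraMap k (AlgebraicClosure k) (x i)) = s • f y →
        ∃ (z : Fin (n + 1) × Fin r → L) (u : AlgebraicClosure k),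
        (∀ j, (z j : AlgebraicClosure k) = u * eval y (φ j)) ∧ (∀ j, (fun i => z (j, i)) ≠ 0) ∧
        Module.finrank k (tsp I x) = g + 1 ∧
        ∀ β : Fin (g + 1) → Fin N → k, LinearIndependent k β → (∀ l, β l ∈ tsp I x) →
        hK x β + (∑ w : InfinitePlace k, w.mult * (lam w.1 F e x - lam w.1 G e' x) +
          ∑ w ∈ S, (lam w.1 F e x - lam w.1 G e' x)) ≤ ε * logHeight x + c * cnt T z + C :=
  MP_651af7_nt.Tl.main hI hs hI' hf hp hQ hA h₁ h₂ hF hG (vi_of_res hr hm) hε

end Pool.Agent.Results.MP_8865d3_nt.BirationalTorus
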