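import Pool.Agent.Lib.MP_651af7_nt.Dg.Main

namespace Pool.Agent.Results.MP_8865d3_nt.BoundedDegree

open Height MvPolynomial NumberField

/-- Points of degree at most `r` and hypersurfaces in general position on a projective variety of
dimension `n`: the constant `(2 r - 1) n + 1`, outside a proper closed subset. -/
theorem result (k : Type) [Field k] [NumberField k] (N q n r : ℕ)
    (I : Ideal (MvPolynomial (Fin N) k)) (hp : I.IsPrime)
    (hI : ∀ P ∈ I, ∀ e, homogeneousComponent e P ∈ I)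
    (hn : ringKrullDim (MvPolynomial (Fin N) k ⧸ I) = (n + 1 : ℕ))
    (F : Fin q → MvPolynomial (Fin N) k) (d : Fin q → ℕ) (hd : ∀ j, 0 < d j)
    (hF : ∀ j, (F j).IsHomogeneous (d j))
    (hg : ∀ J : Finset (Fin q), J.card ≤ n + 1 →
      ringKrullDim (MvPolynomial (Fin N) k ⧸ (I ⊔ Ideal.span (F '' J))) ≤ (n + 1 - J.card : ℕ))
    (ε : ℝ) (hε : 0 < ε) :
    ∃ (Θ : MvPolynomial (Fin N) k) (e : ℕ), Θ.IsHomogeneous e ∧ Θ ∉ I ∧
      ∀ S : Finset (FinitePlace k), ∃ C : ℝ, ∀ (K : Type) [Field K] [NumberField K] [Algebra k K],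
        Module.finrank k K ≤ r → ∀ x : Fin N → K, x ≠ 0 → (∀ P ∈ I, aeval x P = 0) →
        aeval x Θ ≠ 0 → (∀ j, aeval x (F j) ≠ 0) ∧
        ∑ j, (∑ w : InfinitePlace K,
            w.mult * Real.log ((⨆ a, w (x a)) ^ d j / w (aeval x (F j))) +
          ∑ᶠ W ∈ {W : FinitePlace K |
              ∃ v ∈ S, W.maximalIdeal.asIdeal.LiesOver v.maximalIdeal.asIdeal},
            Real.log ((⨆ a, W (x a)) ^ d j / W (aeval x (F j)))) / d j ≤
        ((2 * r - 1) * n + 1 + ε) * logHeight x + C := by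
  have hD : 0 < ∏ j, d j := Finset.prod_pos fun j _ => hd j
  obtain ⟨ρ, hρ⟩ : ∃ ρ : Fin q → ℕ, ∀ j, ∏ j, d j = d j * ρ j :=
    ⟨fun j => (∏ j, d j) / d j, fun j =>
      (Nat.mul_div_cancel' (Finset.dvd_prod_of_mem d (Finset.mem_univ j))).symm⟩
  generalize ∏ j, d j = D at hD hρ
  have h1 : ∀ j, ρ j ≠ 0 := fun j e => by
    rw [hρ j, e, mul_zero] at hD
    exact lt_irrefl _ hD
  obtain ⟨Θ, e, a1, a2, a3⟩ := Lib.MP_651af7_nt.Dg.le_deg I hn hI hD r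
    (fun j => hρ j ▸ (hF j).pow (ρ j)) (Lib.MP_651af7_nt.Dg.gp_pow hg ρ) hε
  refine ⟨Θ, e, a1, a2, fun S => ?_⟩
  obtain ⟨C, hC⟩ := a3 S
  refine ⟨C / D, fun K _ _ _ hK x hx h2 h3 => ?_⟩
  obtain ⟨b1, b2⟩ := hC K hK x hx h2 h3
  refine ⟨fun j h => b1 j (by rw [map_pow, h, zero_pow (h1 j)]), ?_⟩
  have hD' : (0 : ℝ) < D := Nat.cast_pos.2 hD
  refine le_of_mul_le_mul_right ?_ hD'
  rw [add_mul, div_mul_cancel₀ _ hD'.ne', Finset.sum_mul]
  refine le_of_eq_of_le (Finset.sum_congr rfl fun j _ => ?_) (b2.trans (le_of_eq (by ring)))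
  have h4 : (d j : ℝ) ≠ 0 := Nat.cast_ne_zero.2 (hd j).ne'
  rw [hρ j, Nat.cast_mul, ← mul_assoc, div_mul_cancel₀ _ h4, mul_comm]
  simp only [map_pow, pow_mul, ← div_pow, Real.log_pow]
  rw [Lib.MP_651af7_nt.Dg.msum_mul]
  rfl

end Pool.Agent.Results.MP_8865d3_nt.BoundedDegree
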