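import Pool.Agent.Lib.MP_651af7_nt.Nf.Sharp
import Pool.Agent.Lib.MP_651af7_nt.Nf.Cf
import Pool.Agent.Lib.MP_651af7_nt.El.Can

namespace Pool.Agent.Results.MP_8865d3_nt.ExactRuVojta

open Height MvPolynomial NumberField IntermediateField Module Pool.Agent.Lib.MP_651af7_nt Ds Fc

/-- The theorem of Ru and Vojta for a family over an abelian variety, with general position and
the constants taken on the generic fibre, and with the height of the linear span of the fibre in
the embedding of degree `d`. -/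
theorem result (k : Type) [Field k] [NumberField k] (g n q s : ℕ)
    (J : Ideal (MvPolynomial (Fin g) k)) (hJ : ∀ P ∈ J, ∀ d, homogeneousComponent d P ∈ J)
    (hA : Abelian (J.map (MvPolynomial.map (algebraMap k (AlgebraicClosure k)))))
    (K : Type) [Field K] [Algebra k K] (y : Fin g → K) (f : Fin n → K)
    (hy : ∀ (P : MvPolynomial (Fin g) k) (d : ℕ), P.IsHomogeneous d → (aeval y P = 0 ↔ P ∈ J))
    (y1 : ∃ i, y i = 1) (f1 : ∃ i, f i ≠ 0) (F : IntermediateField k K)
    (hF : F = adjoin k (Set.range y)) (hK : adjoin F (Set.range f) = ⊤)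
    (U : Fin q → Fin s → MvPolynomial (Fin g ⊕ Fin n) k)
    (hU : ∀ j, ∃ l, aeval (Sum.elim y f) (U j l) ≠ 0) (e δ : Fin q → ℕ)
    (hδ : ∀ j l, aeval (Sum.elim y f) (U j l) ∈ mon F f (δ j))
    (hP : GenPos F f (fun j l => aeval (Sum.elim y f) (U j l)) δ) (d M : ℕ) (a : Fin q → ℕ)
    (ha : ∀ j, a j ≤ ∑ m ∈ Finset.range M,
      finrank F (van F f (fun j l => aeval (Sum.elim y f) (U j l)) δ j d (m + 1)))
    (R : ℕ) (hR : R = finrank F (mon F f d)) (φ : Fin R → K)
    (B : Matrix (Fin d → Fin n) (Fin R) (MvPolynomial (Fin g) k))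
    (hB : ∀ c, ∏ i, f (c i) = ∑ l, aeval y (B c l) * φ l) (ε : ℝ) (hε : 0 < ε) :
    ∃ Θ : MvPolynomial (Fin g ⊕ Fin n) k, aeval (Sum.elim y f) Θ ≠ 0 ∧
      ∀ S : Finset (FinitePlace k), ∃ C : ℝ, ∀ (x : Fin g → k) (t : Fin n → k),
        (∀ P, aeval (Sum.elim y f) P = 0 → eval (Sum.elim x t) P = 0) →
        eval (Sum.elim x t) Θ ≠ 0 → (∀ j, ∃ l, eval (Sum.elim x t) (U j l) ≠ 0) ∧
        ∑ j, a j *
          (∑ v : InfinitePlace k, v.mult * Real.log ((⨆ i, v (x i)) ^ e j *
            (⨆ i, v (t i)) ^ δ j / ⨆ l, v (eval (Sum.elim x t) (U j l))) +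
          ∑ v ∈ S, Real.log ((⨆ i, v (x i)) ^ e j *
            (⨆ i, v (t i)) ^ δ j / ⨆ l, v (eval (Sum.elim x t) (U j l)))) +
        logHeight (fun c => ((B.map (eval x)).submatrix c id).det) ≤
        (1 + ε) * (d * R) * logHeight t + ε * logHeight x + C :=
  Nf.sharp k g n q s J K y f (Nf.dn Nf.cf ⟨hJ, y1, hy⟩ hA) f1 F hF hK U hU e δ hδ hP d M a ha R hR
    φ B hB ε hε

/-- The case of the symmetric power of the elliptic curve `y ^ 2 = ∏ (x - e l)` in plain terms.
`D` is formed by the origin and the zeros of `z = ∏ (x - b l) * y`. The point `(x', y')` is the last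
zero of a function over `k` in the span of `1, x, y, x ^ 2, x * y, ...` (pole order at most
`r + 1`) that vanishes at the point `(x, y)` of degree `r`, that is, minus the trace. -/
theorem elliptic_plain (k : Type) [Field k] [NumberField k] (d r : ℕ) (e : Fin 3 → k)
    (b : Fin d → k) (hb : ∀ i j, Sum.elim e b i = Sum.elim e b j → i = j) (hr : 2 ≤ r) (ε : ℝ)
    (hε : 0 < ε) : ∃ Θ : MvPolynomial (Fin r ⊕ Fin r) k,
      (∃ p q : Fin r → AlgebraicClosure k, (∀ i, q i ^ 2 = ∏ l, (p i - algebraMap k _ (e l))) ∧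
        aeval (Sum.elim p q) Θ ≠ 0) ∧
      ∀ N : ℕ, N ≠ 0 → ∃ c : ℝ, ∀ (L : Type) [Field L] [NumberField L] [Algebra k L]
        (σ : Fin r → L →+* AlgebraicClosure k) (x y z : L) (T : Finset (FinitePlace L)),
        finrank k L = r → (∀ i a, σ i (algebraMap k L a) = algebraMap k _ a) →
        (∀ i j, σ i = σ j → i = j) → y ^ 2 = ∏ l, (x - algebraMap k L (e l)) →
        z = (∏ l, (x - algebraMap k L (b l))) * y → z ≠ 0 → (∀ w, w ∈ T ↔ w N < 1) →
        aeval (Sum.elim (σ · x) (σ · y)) Θ ≠ 0 →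
        ∃ (x' y' s : k) (t : Fin r → k), t ≠ 0 ∧ y' ^ 2 = ∏ l, (x' - e l) ∧
          algebraMap k L s + ∑ i, algebraMap k L (t i) *
            (x ^ (i.1 / 2 + 1 - i.1 % 2) * y ^ (i.1 % 2)) = 0 ∧
          s + ∑ i, t i * (x' ^ (i.1 / 2 + 1 - i.1 % 2) * y' ^ (i.1 % 2)) = 0 ∧
          ∑ v : InfinitePlace L, v.mult * Real.log ((1 ⊔ v x) ^ (d + 2) / v z) +
          ∑ v ∈ T, Real.log ((1 ⊔ v x) ^ (d + 2) / v z) +
          (1 - ε) * logHeight ![x', 1] / 2 ≤ (r + ε) * logHeight ![x, 1] / 2 + c :=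
  El.plain k d r e b hb hr ε hε

end Pool.Agent.Results.MP_8865d3_nt.ExactRuVojta

namespace Pool.Agent.Results.MP_8865d3_nt.ExactRuVojta

open Height NumberField Polynomial WeierstrassCurve Affine Pool.Agent.Lib.MP_651af7_nt

/-- The hypothesis `Abelian` holds for every elliptic curve. -/
theorem abelian_elliptic (k : Type) [Field k] [CharZero k] (W : WeierstrassCurve k) [W.IsElliptic] :
    Ds.Abelian ((Ideal.span {W.toProjective.polynomial}).map
      (MvPolynomial.map (algebraMap k (AlgebraicClosure k)))) := by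
  rw [Ideal.map_span, Set.image_singleton, ← WeierstrassCurve.Projective.map_polynomial]
  exact El.abelian_cubic fun x y h => equation_iff_nonsingular.1 h

open scoped Classical in
/-- The reading for the symmetric power of an elliptic curve `E : y ^ 2 = f(x)`, made explicit.
`D` is the reduced divisor formed by the origin and the zeros of `G(x) y`. For a point `P = (x, y)`
of degree `r` whose conjugates lie outside a hypersurface of `E ^ r`, with trace `R`, the proximity
to `D` at the infinite places and the places above `N` is at most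
`(r + ε) h(x(P)) / 2 - (1 - ε) h(x(R)) / 2 + C`, with heights relative to `L` and to `k`. -/
theorem elliptic (k : Type) [Field k] [NumberField k] (Ω : Type) [Field Ω] [IsAlgClosed Ω]
    [Algebra k Ω] (W : WeierstrassCurve k) (h1 : W.a₁ = 0) (h3 : W.a₃ = 0) (G : k[X])
    (hs : (G * (X ^ 3 + C W.a₂ * X ^ 2 + C W.a₄ * X + C W.a₆)).Separable)
    (r : ℕ) (hr : 2 ≤ r) (ε : ℝ) (hε : 0 < ε) : ∃ Θ : MvPolynomial (Fin r ⊕ Fin r) k,
      (∃ p q : Fin r → Ω, (∀ i, (W.toAffine⁄Ω).Nonsingular (p i) (q i)) ∧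
        MvPolynomial.aeval (Sum.elim p q) Θ ≠ 0) ∧
      ∀ N : ℕ, N ≠ 0 → ∃ c : ℝ, ∀ (L : Type) [Field L] [NumberField L] [Algebra k L]
        (σ : Fin r ≃ (L →ₐ[k] Ω)) (x y : L) (h : (W.toAffine⁄L).Nonsingular x y)
        (T : Finset (FinitePlace L)), (∀ w, w ∈ T ↔ w N < 1) →
        MvPolynomial.aeval (Sum.elim (σ · x) (σ · y)) Θ ≠ 0 → aeval x G * y ≠ 0 →
        ∃ R : (W.toAffine⁄k).Point,
          Point.baseChange k Ω R = ∑ i, Point.map (σ i) (.some x y h) ∧
          ∑ v : InfinitePlace L, v.mult *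
            Real.log (max 1 (v x) ^ (G.natDegree + 2) / v (aeval x G * y)) +
          ∑ v ∈ T, Real.log (max 1 (v x) ^ (G.natDegree + 2) / v (aeval x G * y)) +
          (1 - ε) * logHeight R.xRep / 2 ≤ (r + ε) * logHeight₁ x / 2 + c :=
  El.canon k Ω W h1 h3 G hs r hr ε hε

end Pool.Agent.Results.MP_8865d3_nt.ExactRuVojta
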