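import Pool.Agent.Lib.MP_651af7_nt.Am6.Lev
import Pool.Agent.Lib.MP_651af7_nt.Am6.PenB
import Pool.Agent.Lib.MP_651af7_nt.Nf.Cf

namespace Pool.Agent.Results.MP_8865d3_nt.LevinFibred

open Height MvPolynomial NumberField IntermediateField Pool.Agent.Lib.MP_651af7_nt Ds Am Am6

/-- Integral points on the complement of `q` semiample divisors on a variety over an abelian
variety, which may be a point. On the generic fibre any `s` of the divisors meet properly, at most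
`m` of them meet, and `s q > 2 m l` (or `s q = 2 m l` if each has Iitaka dimension at least two),
where `l` is at least `m` or the Iitaka dimension of their sum. They need not be big. -/
theorem result (k : Type) [Field k] [NumberField k] (g R N q l s m : ℕ)
    (J : Ideal (MvPolynomial (Fin g) k)) (hJ : ∀ P ∈ J, ∀ d, homogeneousComponent d P ∈ J)
    (hA : Abelian (J.map (MvPolynomial.map (algebraMap k (AlgebraicClosure k)))))
    (K : Type) [Field K] [Algebra k K] (y : Fin g → K) (ξ : Fin R × Fin N → K)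
    (hy : ∀ (P : MvPolynomial (Fin g) k) (d : ℕ), P.IsHomogeneous d → (aeval y P = 0 ↔ P ∈ J))
    (y1 : ∃ i, y i = 1) (ξ1 : ∀ b, ∃ a, ξ (b, a) ≠ 0) (F : IntermediateField k K)
    (hF : F = adjoin k (Set.range y)) (hK : adjoin F (Set.range ξ) = ⊤)
    (U : Fin q → MvPolynomial (Fin g ⊕ Fin R × Fin N) k)
    (hU : ∀ j, aeval (Sum.elim y ξ) (U j) ≠ 0) (d : Fin q → Fin R → ℕ)
    (hh : ∀ j, aeval (Sum.elim y ξ) (U j) ∈ bm F ξ (d j))
    (hP : Idx F ξ d (fun j => aeval (Sum.elim y ξ) (U j)) s)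
    (hQ : Meet F ξ d (fun j => aeval (Sum.elim y ξ) (U j)) m) (s0 : 0 < s) (sm : s ≤ m)
    (hl : rk F ξ d Finset.univ ≤ l ∨ m ≤ l) (q0 : 0 < q)
    (h1 : 2 * m * l < s * q ∨ 2 * m * l = s * q ∧ ∀ j, 2 ≤ rk F ξ d {j}) :
    ∃ I : Finset (Fin q), I.Nonempty ∧
      ((∀ T : Finset (Fin q), T.Nonempty → rk F ξ d T < rk F ξ d Finset.univ →
        rk F ξ d Finset.univ * T.card < q * rk F ξ d T) → I = Finset.univ) ∧
      ∀ (e : ℕ) (ε : ℝ), (e ≠ 0 → Algebra.IsAlgebraic (adjoin k (rt ξ d I)) K) → 0 < ε →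
      ∃ (Θ : MvPolynomial (Fin g ⊕ Fin R × Fin N) k) (c : Fin q → ℕ),
      aeval (Sum.elim y ξ) Θ ≠ 0 ∧ ∀ S : Finset (FinitePlace k), ∃ C : ℝ,
        ∀ (x : Fin g → k) (t : Fin R × Fin N → k),
        (∀ P, aeval (Sum.elim y ξ) P = 0 → eval (Sum.elim x t) P = 0) →
        eval (Sum.elim x t) Θ ≠ 0 → (∀ j, eval (Sum.elim x t) (U j) ≠ 0) ∧
        (∀ b, (fun a => t (b, a)) ≠ 0) ∧
        ∑ j ∈ I, ∑ b, d j b * logHeight (fun a => t (b, a)) +
            e * (logHeight x + ∑ b, logHeight fun a => t (b, a)) ≤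
          ∑ j, c j * ∑ᶠ v ∈ (S : Set (FinitePlace k))ᶜ, Real.log
            ((∏ b, (⨆ a, v (t (b, a))) ^ d j b) / v (eval (Sum.elim x t) (U j))) +
            ε * logHeight x + C :=
  Am6.main7 k g R N q l s m J K y ξ (Nf.dn Nf.cf ⟨hJ, y1, hy⟩ hA) ξ1 F hF hK U hU d hh hP hQ s0 sm hl
    q0 h1

/-- The integral points are not dense if every divisor moves and its blocks determine the point of
the base up to finitely many choices; this holds if the base is a point. -/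
theorem levin (k : Type) [Field k] [NumberField k] (g R N q l s m : ℕ)
    (J : Ideal (MvPolynomial (Fin g) k)) (hJ : ∀ P ∈ J, ∀ d, homogeneousComponent d P ∈ J)
    (hA : Abelian (J.map (MvPolynomial.map (algebraMap k (AlgebraicClosure k)))))
    (K : Type) [Field K] [Algebra k K] (y : Fin g → K) (ξ : Fin R × Fin N → K)
    (hy : ∀ (P : MvPolynomial (Fin g) k) (d : ℕ), P.IsHomogeneous d → (aeval y P = 0 ↔ P ∈ J))
    (y1 : ∃ i, y i = 1) (ξ1 : ∀ b, ∃ a, ξ (b, a) ≠ 0) (F : IntermediateField k K)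
    (hF : F = adjoin k (Set.range y)) (hK : adjoin F (Set.range ξ) = ⊤)
    (U : Fin q → MvPolynomial (Fin g ⊕ Fin R × Fin N) k)
    (hU : ∀ j, aeval (Sum.elim y ξ) (U j) ≠ 0) (d : Fin q → Fin R → ℕ)
    (hh : ∀ j, aeval (Sum.elim y ξ) (U j) ∈ bm F ξ (d j))
    (hP : Idx F ξ d (fun j => aeval (Sum.elim y ξ) (U j)) s)
    (hQ : Meet F ξ d (fun j => aeval (Sum.elim y ξ) (U j)) m) (s0 : 0 < s) (sm : s ≤ m)
    (hl : rk F ξ d Finset.univ ≤ l ∨ m ≤ l) (q0 : 0 < q)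
    (h1 : 2 * m * l < s * q ∨ 2 * m * l = s * q ∧ ∀ j, 2 ≤ rk F ξ d {j})
    (h2 : ∀ j i, IsAlgebraic (adjoin k (rt ξ d {j})) (y i))
    (h3 : ∀ j, ∃ z ∈ rt ξ d {j}, Transcendental k z) (S : Finset (FinitePlace k)) (B : ℝ) :
    ∃ Θ : MvPolynomial (Fin g ⊕ Fin R × Fin N) k, aeval (Sum.elim y ξ) Θ ≠ 0 ∧
      ∀ (x : Fin g → k) (t : Fin R × Fin N → k),
        (∀ P, aeval (Sum.elim y ξ) P = 0 → eval (Sum.elim x t) P = 0) →
        (∀ j, ∑ᶠ v ∈ (S : Set (FinitePlace k))ᶜ, Real.log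
          ((∏ b, (⨆ a, v (t (b, a))) ^ d j b) / v (eval (Sum.elim x t) (U j))) ≤ B) →
        eval (Sum.elim x t) Θ = 0 :=
  Am6.levin k g R N q l s m J K y ξ (Nf.dn Nf.cf ⟨hJ, y1, hy⟩ hA) ξ1 F hF hK U hU d hh hP hQ s0 sm hl
    q0 h1 h2 h3
    S B

/-- Pencils, with no hypothesis on the position. At most `m` of the nonconstant functions `f j` have
a pole at any one valuation, and they generate a field of transcendence degree `n`. If `q > 2 m n`,
or if `q > 2 m` and `m ≤ n` or `m ≤ 2`, the points at which every `f j` is integral up to a bounded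
factor are not dense. -/
theorem pencils (k : Type) [Field k] [NumberField k] (q m n : ℕ) (K : Type) [Field K] [Algebra k K]
    (f : Fin q → K) (hf : ∀ j, Transcendental k (f j))
    (hn : Algebra.trdeg k (adjoin k (Set.range f)) = n) (m0 : 0 < m)
    (hm : ∀ O : ValuationSubring K, (∀ c : k, algebraMap k K c ∈ O) → {j | f j ∉ O}.ncard ≤ m)
    (h : 2 * m * n < q ∨ (m ≤ n ∨ m ≤ 2) ∧ 2 * m < q) (S : Finset (FinitePlace k)) (B : ℝ) :
    ∃ Θ : MvPolynomial (Fin q) k, aeval f Θ ≠ 0 ∧ ∀ t : Fin q → k,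
      (∀ P, aeval f P = 0 → eval t P = 0) →
      (∀ j, ∑ᶠ v ∈ (S : Set (FinitePlace k))ᶜ, Real.log (max 1 (v (t j))) ≤ B) → eval t Θ = 0 := by
  obtain ⟨g, g1, g2, g3, g4⟩ := pen_sub hm
  simp only [ne_eq, g3]
  replace hf : ∀ j, Transcendental k (g j) := fun j e =>
    hf j (g1 j ▸ e.algHom (adjoin k (Set.range f)).val)
  clear g1 g3 hm
  generalize adjoin k (Set.range f) = K' at *
  have hQ := fun O (hO : ∀ c : adjoin k (Set.range fun _ : Fin 1 => (1 : K')),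
    algebraMap _ K' c ∈ O) => g4 O fun c => hO (algebraMap k _ c)
  obtain ⟨s, l, s0, sm, hl, h1, hP⟩ : ∃ s l, 0 < s ∧ s ≤ m ∧ (n ≤ l ∨ m ≤ l) ∧ 2 * m * l < s * q ∧
      Idx (adjoin k (Set.range fun _ : Fin 1 => (1 : K'))) (pb g) pd (fun _ => 1) s := by
    by_cases c : 2 * m * n < q
    · exact ⟨1, n, one_pos, m0, .inl le_rfl, by rwa [one_mul], idx_one fun _ => one_ne_zero⟩
    obtain ⟨h1, h2⟩ := h.resolve_left c
    have h3 : m ≤ n := by
      by_contra h3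
      have : n ≤ 1 := by omega
      exact c (lt_of_le_of_lt (mul_le_of_le_one_right' this) h2)
    obtain ⟨z, hz⟩ := pen_ind (k := k) (K := K') (hn ▸ Nat.cast_le.2 h3)
    exact ⟨m, m, m0, le_rfl, .inr le_rfl, by nlinarith, pen_idx (pen_top _ g2) hQ hz⟩
  have e : (fun j : Fin q => aeval (Sum.elim (fun _ : Fin 1 => (1 : K')) (pb g))
      (X (.inr (j, 0)) : MvPolynomial (Fin 1 ⊕ Fin q × Fin 2) k)) = fun _ => 1 :=
    funext fun j => aeval_X _ _
  exact pen_end (levin k 1 q 2 q l s m ⊥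
    (fun P hP d => by rw [Ideal.mem_bot.1 hP, map_zero]; exact Ideal.zero_mem _)
    (by rw [Ideal.map_bot]; exact pen_pt) K' (fun _ => 1) (pb g) pen_hy ⟨0, rfl⟩
    (fun b => ⟨0, one_ne_zero⟩) _ rfl (pen_top _ g2) (fun j => X (.inr (j, 0)))
    (fun j => (congrFun e j).trans_ne one_ne_zero) pd (fun j => (congrFun e j).symm ▸ pen_bm g j)
    (e.symm ▸ hP) (e.symm ▸ pen_meet hQ) s0 sm
    (hl.imp_left fun h => (pen_rk _ _ _ _).trans (hn ▸ Nat.cast_le.2 h)) (by omega) (.inl h1)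
    (fun _ _ => isAlgebraic_one) (fun j => ⟨g j, pen_rt g j, hf j⟩) S B)

/-- The case of big divisors: at least `2 n` of them on a variety of relative dimension `n`. -/
theorem big (k : Type) [Field k] [NumberField k] (g R N q n : ℕ)
    (J : Ideal (MvPolynomial (Fin g) k)) (hJ : ∀ P ∈ J, ∀ d, homogeneousComponent d P ∈ J)
    (hA : Abelian (J.map (MvPolynomial.map (algebraMap k (AlgebraicClosure k)))))
    (K : Type) [Field K] [Algebra k K] (y : Fin g → K) (ξ : Fin R × Fin N → K)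
    (hy : ∀ (P : MvPolynomial (Fin g) k) (d : ℕ), P.IsHomogeneous d → (aeval y P = 0 ↔ P ∈ J))
    (y1 : ∃ i, y i = 1) (ξ1 : ∀ b, ∃ a, ξ (b, a) ≠ 0) (F : IntermediateField k K)
    (hF : F = adjoin k (Set.range y)) (hK : adjoin F (Set.range ξ) = ⊤)
    (hn : Algebra.trdeg F K = n)
    (U : Fin q → MvPolynomial (Fin g ⊕ Fin R × Fin N) k)
    (hU : ∀ j, aeval (Sum.elim y ξ) (U j) ≠ 0) (d : Fin q → Fin R → ℕ)
    (hd : ∀ j, Algebra.IsAlgebraic
      (adjoin F {z | ∃ b a a', d j b ≠ 0 ∧ z = ξ (b, a) / ξ (b, a')}) K)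
    (he : ∃ j, Algebra.IsAlgebraic
      (adjoin k {z | ∃ b a a', d j b ≠ 0 ∧ z = ξ (b, a) / ξ (b, a')}) K)
    (hh : ∀ j, aeval (Sum.elim y ξ) (U j) ∈ bm F ξ (d j))
    (hP : Gen F ξ (fun j => aeval (Sum.elim y ξ) (U j)) d)
    (h1 : 2 * n ≤ q) (h2 : 3 ≤ q) :
    ∃ (Θ : MvPolynomial (Fin g ⊕ Fin R × Fin N) k) (c : Fin q → ℕ),
      aeval (Sum.elim y ξ) Θ ≠ 0 ∧ ∀ S : Finset (FinitePlace k), ∃ C : ℝ,
        ∀ (x : Fin g → k) (t : Fin R × Fin N → k),
        (∀ P, aeval (Sum.elim y ξ) P = 0 → eval (Sum.elim x t) P = 0) →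
        eval (Sum.elim x t) Θ ≠ 0 → (∀ j, eval (Sum.elim x t) (U j) ≠ 0) ∧
        (∀ b, (fun a => t (b, a)) ≠ 0) ∧
        logHeight x + ∑ b, logHeight (fun a => t (b, a)) ≤
          ∑ j, c j * ∑ᶠ v ∈ (S : Set (FinitePlace k))ᶜ, Real.log
            ((∏ b, (⨆ a, v (t (b, a))) ^ d j b) / v (eval (Sum.elim x t) (U j))) + C :=
  Am5.main7 k g R N q n J K y ξ (Nf.dn Nf.cf ⟨hJ, y1, hy⟩ hA) ξ1 F hF hK hn U hU d hd he hh hP
    h1 h2

end Pool.Agent.Results.MP_8865d3_nt.LevinFibred
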